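import Pool.Agent.Results.MP_71830d_co.Separation
import Pool.Agent.D0H3.Labeling

/-!
# Strict asymptotic separation of `sat(Q_n, Q_2)` and `s-sat(Q_n, Q_2)`: answer to Q2

`limsup s-sat(Q_n, Q_2) / 2 ^ n ≤ 3 < 31 / 10 ≤ liminf sat(Q_n, Q_2) / 2 ^ n`, both taken over all `n`.

The lower bound for `sat` is from the starting file. For the upper bound for `s-sat` let `n = a + b`
with `a = ⌊n / 2⌋` and take all edges of `Q_n` with an end in `(C × Q_b) ∪ (Q_a × D)`, where `C`, `D`
are dominating sets of `Q_a`, `Q_b` with `(1 + o(1)) 2 ^ a / a` and `(1 + o(1)) 2 ^ b / b` elements.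
Such dominating sets exist for all dimensions: the vertices of `Q_n` can be labelled by
`(1 - o(1)) n` labels such that all labels occur in every closed neighbourhood
(`Pool.Agent.D0H3.Labeling`, from Hamming codes over the fields with `3 ^ a` elements, where
`3 ^ a` is slightly smaller than a power of two, and doubling).
-/

set_option autoImplicit false

open Finset Filter

namespace Pool.Agent.Results.MP_71830d_co.StrictSeparation

open Pool.Agent.Results.MP_71830d_co.Separation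
open Pool.Agent.D0H3.Labeling

lemma sSat_le {n : ℕ} (D : Finset (Fin n)) (C1 C2 : Finset (Fin n → Bool))
    (h1 : ∀ x, x ∈ C1 ∨ ∃ i ∈ D, flp x i ∈ C1) (h1' : ∀ x, ∀ i, i ∉ D → (flp x i ∈ C1 ↔ x ∈ C1))
    (h2 : ∀ x, x ∈ C2 ∨ ∃ i, i ∉ D ∧ flp x i ∈ C2) (h2' : ∀ x, ∀ i ∈ D, (flp x i ∈ C2 ↔ x ∈ C2)) :
    2 * sSat n ≤ D.card * (2 * C1.card + C2.card) + (n - D.card) * (C1.card + 2 * C2.card) := by
  classical
  let G : SimpleGraph (Fin n → Bool) :=
    { Adj := fun u v => (Q n).Adj u v ∧ ((u ∈ C1 ∨ u ∈ C2) ∨ (v ∈ C1 ∨ v ∈ C2))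
      symm := ⟨fun u v h => ⟨h.1.symm, h.2.symm⟩⟩
      loopless := ⟨fun u h => (Q n).loopless.irrefl u h.1⟩ }
  have hGQ : G ≤ Q n := fun u v h => h.1
  have hsemi : SemiSat G := by
    refine ⟨hGQ, ?_⟩
    intro x y hxy hnot
    obtain ⟨i, rfl⟩ := adj_flp hxy
    have hx1 : x ∉ C1 := fun h => hnot ⟨hxy, Or.inl (Or.inl h)⟩
    have hx2 : x ∉ C2 := fun h => hnot ⟨hxy, Or.inl (Or.inr h)⟩
    obtain ⟨j, hij, hj1, hj2⟩ : ∃ j, i ≠ j ∧ (flp x j ∈ C1 ∨ flp x j ∈ C2) ∧
        (flp (flp x i) j ∈ C1 ∨ flp (flp x i) j ∈ C2) := by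
      by_cases hi : i ∈ D
      · obtain ⟨j, hj, hj'⟩ := (h2 x).resolve_left hx2
        refine ⟨j, ?_, Or.inr hj', Or.inr ?_⟩
        · rintro rfl; exact hj hi
        · rw [flp_comm]; exact (h2' _ _ hi).2 hj'
      · obtain ⟨j, hj, hj'⟩ := (h1 x).resolve_left hx1
        refine ⟨j, ?_, Or.inl hj', Or.inl ?_⟩
        · rintro rfl; exact hi hj
        · rw [flp_comm]; exact (h1' _ _ hi).2 hj'
    refine ⟨flp (flp x i) j, flp x j, ?_, ?_, ?_, ?_, ?_⟩
    · intro hc
      have h1 := congrFun hc i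
      rw [flp_of_ne _ hij, flp_self] at h1
      revert h1
      cases x i <;> simp
    · intro hc
      exact hij (flp_inj x hc)
    · exact ⟨flp_adj _ _, Or.inr hj2⟩
    · refine ⟨?_, Or.inl hj2⟩
      rw [flp_comm]
      exact (flp_adj _ _).symm
    · exact ⟨(flp_adj _ _).symm, Or.inl hj1⟩
  have hle : sSat n ≤ G.edgeSet.ncard := Nat.sInf_le ⟨G, hsemi, rfl⟩
  have hsum := sum_deg hGQ
  have hdeg : ∑ v, deg (fun u i => G.Adj u (flp u i)) v =
      ∑ i : Fin n, ∑ v : Fin n → Bool, (if G.Adj v (flp v i) then 1 else 0) := by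
    rw [Finset.sum_comm]
    apply Finset.sum_congr rfl
    intro v _
    unfold deg
    rw [card_filter]
    apply Finset.sum_congr rfl
    intro i _
    by_cases h : G.Adj v (flp v i)
    · rw [if_pos h, if_pos h]
    · rw [if_neg h, if_neg h]
  have hC : ∀ (C : Finset (Fin n → Bool)), ∑ v : Fin n → Bool, (if v ∈ C then 1 else 0) = C.card := by
    intro C
    rw [← card_filter]
    congr 1
    ext v; simp
  have hCf : ∀ (C : Finset (Fin n → Bool)) (i : Fin n),
      ∑ v : Fin n → Bool, (if flp v i ∈ C then 1 else 0) = C.card := by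
    intro C i
    rw [← hC C]
    exact sum_flip (f := flp) flp_flp i (fun v => if v ∈ C then 1 else 0)
  have hi1 : ∀ i ∈ D, ∑ v : Fin n → Bool, (if G.Adj v (flp v i) then 1 else 0) ≤
      2 * C1.card + C2.card := by
    intro i hi
    have h3 : ∀ v : Fin n → Bool, (if G.Adj v (flp v i) then 1 else 0) ≤
        ((if v ∈ C1 then 1 else 0) + (if flp v i ∈ C1 then 1 else 0)) +
          (if v ∈ C2 then 1 else 0) := by
      intro v
      by_cases hv : G.Adj v (flp v i)
      · rw [if_pos hv]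
        rcases hv.2 with (h | h) | (h | h)
        · rw [if_pos h]; omega
        · rw [if_pos h]; omega
        · rw [if_pos h]; omega
        · rw [if_pos ((h2' v i hi).1 h)]; omega
      · rw [if_neg hv]; exact Nat.zero_le _
    refine (Finset.sum_le_sum fun v _ => h3 v).trans ?_
    rw [Finset.sum_add_distrib, Finset.sum_add_distrib, hC, hC, hCf]
    omega
  have hi2 : ∀ i, i ∉ D → ∑ v : Fin n → Bool, (if G.Adj v (flp v i) then 1 else 0) ≤
      C1.card + 2 * C2.card := by
    intro i hi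
    have h3 : ∀ v : Fin n → Bool, (if G.Adj v (flp v i) then 1 else 0) ≤
        ((if v ∈ C2 then 1 else 0) + (if flp v i ∈ C2 then 1 else 0)) +
          (if v ∈ C1 then 1 else 0) := by
      intro v
      by_cases hv : G.Adj v (flp v i)
      · rw [if_pos hv]
        rcases hv.2 with (h | h) | (h | h)
        · rw [if_pos h]; omega
        · rw [if_pos h]; omega
        · rw [if_pos ((h1' v i hi).1 h)]; omega
        · rw [if_pos h]; omega
      · rw [if_neg hv]; exact Nat.zero_le _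
    refine (Finset.sum_le_sum fun v _ => h3 v).trans ?_
    rw [Finset.sum_add_distrib, Finset.sum_add_distrib, hC, hC, hCf]
    omega
  have htot : ∑ i : Fin n, ∑ v : Fin n → Bool, (if G.Adj v (flp v i) then 1 else 0) ≤
      D.card * (2 * C1.card + C2.card) + (n - D.card) * (C1.card + 2 * C2.card) := by
    rw [← Finset.sum_add_sum_compl D]
    apply Nat.add_le_add
    · rw [← smul_eq_mul, ← Finset.sum_const]
      exact Finset.sum_le_sum hi1
    · have hcompl : (Dᶜ : Finset (Fin n)).card = n - D.card := by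
        rw [Finset.card_compl, Fintype.card_fin]
      rw [← hcompl, ← smul_eq_mul, ← Finset.sum_const]
      exact Finset.sum_le_sum fun i hi => hi2 i (Finset.mem_compl.1 hi)
  calc 2 * sSat n ≤ 2 * G.edgeSet.ncard := Nat.mul_le_mul_left _ hle
    _ = _ := hsum.symm
    _ = _ := hdeg
    _ ≤ _ := htot

/-- a small class of a labeling -/
lemma small_class {n : ℕ} {K : Type} [Finite K] [Nonempty K] (p : (Fin n → Bool) → K) :
    ∃ k, ∃ C : Finset (Fin n → Bool), (∀ x, x ∈ C ↔ p x = k) ∧ Nat.card K * C.card ≤ 2 ^ n := by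
  classical
  have : Fintype K := Fintype.ofFinite K
  by_contra hcon
  push Not at hcon
  have h1 := Finset.card_eq_sum_card_fiberwise (f := p) (s := univ) (t := univ)
    (fun _ _ => Finset.mem_coe.2 (Finset.mem_univ _))
  have h2 : (univ : Finset (Fin n → Bool)).card = 2 ^ n := by simp
  rw [h2] at h1
  have h3 : ∀ k : K, 2 ^ n < Nat.card K * (univ.filter fun x => p x = k).card := by
    intro k
    exact hcon k _ (fun x => by simp)
  have h4 : ∑ k : K, 2 ^ n < ∑ k : K, Nat.card K * (univ.filter fun x => p x = k).card :=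
    Finset.sum_lt_sum_of_nonempty Finset.univ_nonempty (fun k _ => h3 k)
  rw [← Finset.mul_sum, ← h1, Finset.sum_const, smul_eq_mul, Finset.card_univ,
    ← Nat.card_eq_fintype_card] at h4
  exact lt_irrefl _ h4

lemma sSat_le_labels (a b : ℕ) (K L : Type) [Finite K] [Finite L] (hK : Lab (Fin a) K)
    (hL : Lab (Fin b) L) (hK0 : 0 < Nat.card K) (hL0 : 0 < Nat.card L) :
    2 * (sSat (a + b) : ℝ) ≤ 2 ^ (a + b) *
      ((2 * a + b) / (Nat.card K : ℝ) + (a + 2 * b) / (Nat.card L : ℝ)) := by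
  classical
  obtain ⟨π, hπ⟩ := hK
  obtain ⟨ρ, hρ⟩ := hL
  have : Nonempty K := (Nat.card_pos_iff.1 hK0).1
  have : Nonempty L := (Nat.card_pos_iff.1 hL0).1
  let p : (Fin (a + b) → Bool) → K := fun x => π (fun i => x (Fin.castAdd b i))
  let q : (Fin (a + b) → Bool) → L := fun x => ρ (fun i => x (Fin.natAdd a i))
  obtain ⟨k, C1, hC1, hC1'⟩ := small_class p
  obtain ⟨l, C2, hC2, hC2'⟩ := small_class q
  have hdisj : ∀ (i : Fin a) (j : Fin b), Fin.castAdd b i ≠ Fin.natAdd a j := by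
    intro i j h
    have := congrArg Fin.val h
    simp at this
    omega
  have hcase : ∀ i : Fin (a + b), (∃ i', i = Fin.castAdd b i') ∨ (∃ j', i = Fin.natAdd a j') := by
    intro i
    refine Fin.addCases (fun i' => Or.inl ⟨i', rfl⟩) (fun j' => Or.inr ⟨j', rfl⟩) i
  let D : Finset (Fin (a + b)) := univ.image (Fin.castAdd b)
  have hD : ∀ i, i ∈ D ↔ ∃ i', i = Fin.castAdd b i' := by
    intro i; simp [D, eq_comm]
  have hD' : ∀ i, i ∉ D ↔ ∃ j', i = Fin.natAdd a j' := by
    intro i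
    rw [hD]
    constructor
    · intro h; exact (hcase i).resolve_left h
    · rintro ⟨j', rfl⟩ ⟨i', h⟩
      exact hdisj i' j' h.symm
  have hDcard : D.card = a := by
    rw [Finset.card_image_of_injective _ (Fin.castAdd_injective a b)]; simp
  have hp1 : ∀ x (i : Fin a), p (flp x (Fin.castAdd b i)) = π (fl (fun i' => x (Fin.castAdd b i')) i) := by
    intro x i
    change π _ = π _
    congr 1
    funext i'
    by_cases h : i' = i
    · subst h; rw [flp_self, fl_self]
    · rw [flp_of_ne _ (fun h' => h (Fin.castAdd_injective a b h')), fl_of_ne _ h]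
  have hp2 : ∀ x (j : Fin b), p (flp x (Fin.natAdd a j)) = p x := by
    intro x j
    change π _ = π _
    congr 1
    funext i'
    rw [flp_of_ne _ (hdisj i' j)]
  have hq1 : ∀ x (j : Fin b), q (flp x (Fin.natAdd a j)) = ρ (fl (fun i' => x (Fin.natAdd a i')) j) := by
    intro x j
    change ρ _ = ρ _
    congr 1
    funext i'
    by_cases h : i' = j
    · subst h; rw [flp_self, fl_self]
    · rw [flp_of_ne _ (fun h' => h (Fin.natAdd_injective b a h')), fl_of_ne _ h]
  have hq2 : ∀ x (i : Fin a), q (flp x (Fin.castAdd b i)) = q x := by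
    intro x i
    change ρ _ = ρ _
    congr 1
    funext i'
    rw [flp_of_ne _ (hdisj i i').symm]
  have key := sSat_le D C1 C2 ?_ ?_ ?_ ?_
  · rw [hDcard, Nat.add_sub_cancel_left] at key
    have hK0' : (0 : ℝ) < Nat.card K := by exact_mod_cast hK0
    have hL0' : (0 : ℝ) < Nat.card L := by exact_mod_cast hL0
    have e1 : (C1.card : ℝ) ≤ 2 ^ (a + b) / Nat.card K := by
      rw [le_div_iff₀ hK0', mul_comm]
      exact_mod_cast hC1'
    have e2 : (C2.card : ℝ) ≤ 2 ^ (a + b) / Nat.card L := by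
      rw [le_div_iff₀ hL0', mul_comm]
      exact_mod_cast hC2'
    have key' : 2 * (sSat (a + b) : ℝ) ≤ a * (2 * C1.card + C2.card) +
        b * (C1.card + 2 * C2.card) := by exact_mod_cast key
    have ha0 : (0 : ℝ) ≤ a := by positivity
    have hb0 : (0 : ℝ) ≤ b := by positivity
    calc 2 * (sSat (a + b) : ℝ) ≤ a * (2 * C1.card + C2.card) + b * (C1.card + 2 * C2.card) := key'
      _ = (2 * a + b) * C1.card + (a + 2 * b) * C2.card := by ring
      _ ≤ (2 * a + b) * (2 ^ (a + b) / Nat.card K) + (a + 2 * b) * (2 ^ (a + b) / Nat.card L) := by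
          apply add_le_add
          · exact mul_le_mul_of_nonneg_left e1 (by positivity)
          · exact mul_le_mul_of_nonneg_left e2 (by positivity)
      _ = _ := by ring
  · intro x
    rcases hπ (fun i' => x (Fin.castAdd b i')) k with h | ⟨i, h⟩
    · exact Or.inl ((hC1 x).2 h)
    · exact Or.inr ⟨Fin.castAdd b i, (hD _).2 ⟨i, rfl⟩, (hC1 _).2 (by rw [hp1]; exact h)⟩
  · intro x i hi
    obtain ⟨j, rfl⟩ := (hD' i).1 hi
    rw [hC1, hC1, hp2]
  · intro x
    rcases hρ (fun i' => x (Fin.natAdd a i')) l with h | ⟨j, h⟩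
    · exact Or.inl ((hC2 x).2 h)
    · exact Or.inr ⟨Fin.natAdd a j, (hD' _).2 ⟨j, rfl⟩, (hC2 _).2 (by rw [hq1]; exact h)⟩
  · intro x i hi
    obtain ⟨i', rfl⟩ := (hD i).1 hi
    rw [hC2, hC2, hq2]

/-- `s-sat(Q_n, Q_2) ≤ (3 + ε) 2 ^ n` for all large `n`. -/
lemma upper_all (ε : ℝ) (hε : 0 < ε) : ∃ N : ℕ, ∀ n : ℕ, N ≤ n → (sSat n : ℝ) ≤ (3 + ε) * 2 ^ n := by
  -- `δ` with `(6 + δ) / (1 - δ) ≤ 6 + 2 ε`
  set δ := min (1 / 2 : ℝ) (ε / 8) with hδ
  have hδ0 : 0 < δ := lt_min (by norm_num) (by linarith)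
  have hδ1 : δ ≤ 1 / 2 := min_le_left _ _
  have hδ2 : δ ≤ ε / 8 := min_le_right _ _
  obtain ⟨n₀, h0⟩ := exists_lab_asymp δ hδ0 (by linarith)
  obtain ⟨M, hM⟩ := exists_nat_gt (1 / δ)
  refine ⟨2 * (n₀ + M + 1), fun n hn => ?_⟩
  obtain ⟨a, b, hab, hba, hna⟩ : ∃ a b : ℕ, n = a + b ∧ (b = a ∨ b = a + 1) ∧ n₀ + M + 1 ≤ a := by
    refine ⟨n / 2, n - n / 2, by omega, by omega, by omega⟩
  subst hab
  obtain ⟨K, hKf, hK, hKc⟩ := h0 a (by omega)
  obtain ⟨L, hLf, hL, hLc⟩ := h0 b (by omega)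
  have ha1 : (1 : ℝ) ≤ a := by exact_mod_cast (by omega : 1 ≤ a)
  have hb1 : (1 : ℝ) ≤ b := by exact_mod_cast (by omega : 1 ≤ b)
  have haM : 1 / δ ≤ a := by
    have h1 : (M : ℝ) ≤ a := by exact_mod_cast (by omega : M ≤ a)
    linarith
  have haδ : 1 ≤ δ * a := by
    rw [div_le_iff₀ hδ0] at haM
    linarith
  have hKpos : 0 < (1 - δ) * (a : ℝ) := mul_pos (by linarith) (by linarith)
  have hLpos : 0 < (1 - δ) * (b : ℝ) := mul_pos (by linarith) (by linarith)
  have hK0 : (0 : ℝ) < Nat.card K := lt_of_lt_of_le hKpos hKc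
  have hL0 : (0 : ℝ) < Nat.card L := lt_of_lt_of_le hLpos hLc
  have key := sSat_le_labels a b K L hK hL (by exact_mod_cast hK0) (by exact_mod_cast hL0)
  have hba1 : (b : ℝ) ≤ a + 1 := by
    rcases hba with h | h
    · rw [h]; linarith
    · rw [h]; push_cast; linarith
  have hba2 : (a : ℝ) ≤ b := by
    rcases hba with h | h
    · rw [h]
    · rw [h]; push_cast; linarith
  have e1 : (2 * (a : ℝ) + b) / (Nat.card K : ℝ) ≤ (3 + δ) / (1 - δ) := by
    rw [div_le_div_iff₀ hK0 (by linarith)]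
    have h1 : 2 * (a : ℝ) + b ≤ (3 + δ) * a := by linarith
    calc (2 * (a : ℝ) + b) * (1 - δ) ≤ ((3 + δ) * a) * (1 - δ) :=
          mul_le_mul_of_nonneg_right h1 (by linarith)
      _ = (3 + δ) * ((1 - δ) * a) := by ring
      _ ≤ (3 + δ) * Nat.card K := mul_le_mul_of_nonneg_left hKc (by linarith)
  have e2 : ((a : ℝ) + 2 * b) / (Nat.card L : ℝ) ≤ (3 + δ) / (1 - δ) := by
    rw [div_le_div_iff₀ hL0 (by linarith)]
    have h1 : (a : ℝ) + 2 * b ≤ (3 + δ) * b := by nlinarith
    calc ((a : ℝ) + 2 * b) * (1 - δ) ≤ ((3 + δ) * b) * (1 - δ) :=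
          mul_le_mul_of_nonneg_right h1 (by linarith)
      _ = (3 + δ) * ((1 - δ) * b) := by ring
      _ ≤ (3 + δ) * Nat.card L := mul_le_mul_of_nonneg_left hLc (by linarith)
  have e3 : (3 + δ) / (1 - δ) ≤ 3 + ε := by
    rw [div_le_iff₀ (by linarith)]
    nlinarith
  have h2 : (0 : ℝ) < 2 ^ (a + b) := by positivity
  have h3 : (2 * (a : ℝ) + b) / (Nat.card K : ℝ) + (a + 2 * b) / (Nat.card L : ℝ) ≤
      2 * (3 + ε) := by linarith
  have h4 := mul_le_mul_of_nonneg_left h3 h2.le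
  linarith

/-- **Answer to Q2: yes.** -/
theorem result :
    limsup (fun n : ℕ => (sSat n : ENNReal) / 2 ^ n) atTop <
      liminf (fun n : ℕ => (satNum n : ENNReal) / 2 ^ n) atTop ∧
    limsup (fun n : ℕ => (sSat n : ENNReal) / 2 ^ n) atTop ≤ 3 ∧
    31 / 10 ≤ liminf (fun n : ℕ => (satNum n : ENNReal) / 2 ^ n) atTop := by
  have h1 : limsup (fun n : ℕ => (sSat n : ENNReal) / 2 ^ n) atTop ≤ 3 := by
    apply ENNReal.le_of_forall_pos_le_add
    intro ε hε _
    apply Filter.limsup_le_of_le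
    · isBoundedDefault
    · obtain ⟨N, hN⟩ := upper_all ε (by exact_mod_cast hε)
      filter_upwards [Filter.eventually_ge_atTop N] with n hn
      have h := hN n hn
      apply ENNReal.div_le_of_le_mul
      have e1 : (sSat n : ENNReal) = ENNReal.ofReal (sSat n : ℝ) := by
        rw [ENNReal.ofReal_natCast]
      have e2 : ((3 : ENNReal) + ε) * 2 ^ n = ENNReal.ofReal ((3 + (ε : ℝ)) * 2 ^ n) := by
        rw [ENNReal.ofReal_mul (by positivity), ENNReal.ofReal_add (by norm_num) (by positivity),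
          ENNReal.ofReal_pow (by norm_num)]
        simp
      rw [e1, e2]
      exact ENNReal.ofReal_le_ofReal h
  have h2 : 31 / 10 ≤ liminf (fun n : ℕ => (satNum n : ENNReal) / 2 ^ n) atTop := by
    apply Filter.le_liminf_of_le
    · isBoundedDefault
    · filter_upwards [Filter.eventually_ge_atTop (10 ^ 16)] with n hn
      have h := Separation.result.1 n hn
      rw [ENNReal.le_div_iff_mul_le (Or.inl (by positivity)) (Or.inl (by simp))]
      have e1 : (satNum n : ENNReal) = ENNReal.ofReal (satNum n : ℝ) := by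
        rw [ENNReal.ofReal_natCast]
      have e2 : ((31 : ENNReal) / 10) * 2 ^ n = ENNReal.ofReal ((31 / 10 : ℝ) * 2 ^ n) := by
        rw [ENNReal.ofReal_mul (by positivity), ENNReal.ofReal_div_of_pos (by norm_num),
          ENNReal.ofReal_pow (by norm_num)]
        simp
      rw [e1, e2]
      exact ENNReal.ofReal_le_ofReal h
  refine ⟨lt_of_le_of_lt h1 (lt_of_lt_of_le ?_ h2), h1, h2⟩
  rw [ENNReal.lt_div_iff_mul_lt (Or.inl (by norm_num)) (Or.inl (by norm_num))]
  norm_num

end Pool.Agent.Results.MP_71830d_co.StrictSeparation
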